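import Pool.Agent.Lib.MP_a87542_al.InAlg
import Pool.Agent.Lib.MP_a87542_al.Graph18

/-!
A finite lattice `P` and one `P`-indexed commutative diagram of simplicial monoids that lifts,
with respect to `V`, for every field `K`, by unital regular subalgebras of the `3 × 3` matrices
over `K` and inclusion maps, but not in the category of C*-algebras of real rank zero.
-/

namespace Pool.Agent.Results.MP_a87542_al.AllFields

open CategoryTheory Pool.Agent.Lib.MP_a87542_al Matrix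

universe u

theorem result :
    ∃ (P : Type) (_ : Lattice P) (_ : Finite P) (M : P ⥤ AddCommMonCat.{u}),
      (∀ p, Simplicial (M.obj p)) ∧
      (∀ (K : Type u) [Field K], ∃ R : P ⥤ Reg.{u}, Unital R ∧
        InAlg K (Matrix (Fin 3) (Fin 3) K) R ∧ Nonempty (R ⋙ VReg ≅ M)) ∧
      ¬ ∃ A : P ⥤ RR0.{u}, Nonempty (A ⋙ VRR0 ≅ M) := by
  have hd : ∀ (K : Type u) [Field K] (u v : Fin 18),
      (Int.castRingHom K ∘ Y18 u) ⬝ᵥ (Int.castRingHom K ∘ X18 v) =
        ((Y18 u ⬝ᵥ X18 v : ℤ) : K) := fun K _ u v =>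
    (RingHom.map_dotProduct (Int.castRingHom K) _ _).symm
  have hxy : ∀ (K : Type u) [Field K] (v : Fin 18),
      (Int.castRingHom K ∘ Y18 v) ⬝ᵥ (Int.castRingHom K ∘ X18 v) = 1 := fun K _ v => by
    rw [hd, Y18_X18, Int.cast_one]
  let Q := ULift.{u} ℚ
  let x : Fin 18 → Fin 3 → Q := fun v => Int.castRingHom Q ∘ X18 v
  let y : Fin 18 → Fin 3 → Q := fun v => Int.castRingHom Q ∘ Y18 v
  have hz : ∀ n : ℤ, (n : Q) = 0 → n = 0 := fun n hn =>
    Int.cast_eq_zero.1 (show (n : ℚ) = 0 from congrArg ULift.down hn)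
  refine ⟨Pt x y, inferInstance, inferInstance, Rf (x := x) (y := y) (hxy Q) ⋙ VReg,
    Rf_simplicial (hxy Q), fun K _ => ?_, ?_⟩
  · have h : ∀ u v, Adj x y u v → Adj (fun v => Int.castRingHom K ∘ X18 v)
        (fun v => Int.castRingHom K ∘ Y18 v) u v := fun u v h =>
      ⟨(hd K u v).trans (by rw [hz _ ((hd Q u v).symm.trans h.1), Int.cast_zero]),
        (hd K v u).trans (by rw [hz _ ((hd Q v u).symm.trans h.2), Int.cast_zero])⟩
    exact ⟨RfUp (hxy K) h, subDiagram_unital _ _ _, subDiagram_inAlg _ _ _,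
      RfUp_iso (hxy K) (hxy Q) h⟩
  rintro ⟨A, ⟨η⟩⟩
  obtain ⟨lam, h0, h⟩ := Rf_no_lift (x := x) (y := y) (hxy Q) (u0 := 0) (v0 := 1) (by decide)
    (fun h => one_ne_zero (Y18_X18_one.symm.trans (hz _ ((hd Q 0 1).symm.trans h.1)))) A η
  exact no_rep18 lam h0 fun u v huv =>
    h u v ⟨(hd Q u v).trans (by rw [huv.1, Int.cast_zero]),
      (hd Q v u).trans (by rw [huv.2, Int.cast_zero])⟩

end Pool.Agent.Results.MP_a87542_al.AllFields
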