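import Pool.Agent.Lib.MP_a87542_al.Socle

/-!
Every diagram of simplicial monoids that lifts, with respect to `V`, in the category of
C*-algebras of real rank zero also lifts in the category of regular rings; a unital lifting gives
a unital lifting.
-/

namespace Pool.Agent.Results.MP_a87542_al.RR0ImpliesReg

open CategoryTheory Pool.Agent.Lib.MP_a87542_al

universe u

theorem result (P : Type) [Category.{0} P] (M : P ⥤ AddCommMonCat.{u})
    (hM : ∀ p, Simplicial (M.obj p)) (A : P ⥤ RR0.{u}) (hA : Nonempty (A ⋙ VRR0 ≅ M)) :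
    ∃ R : P ⥤ Reg.{u}, Nonempty (R ⋙ VReg ≅ M) ∧
      ((∃ one : ∀ p, (A.obj p).carrier, (∀ p x, one p * x = x ∧ x * one p = x) ∧
        ∀ (p q : P) (h : p ⟶ q),
          (show (A.obj p).carrier →⋆ₙₐ[ℂ] (A.obj q).carrier from A.map h) (one p) = one q) →
        Unital R) := by
  obtain ⟨η⟩ := hA
  let φ : ∀ p, Vs (A.obj p).carrier ≃+ M.obj p := fun p =>
    AddMonoidHom.toAddEquiv (η.hom.app p).hom (η.inv.app p).hom
      (congrArg AddCommMonCat.Hom.hom (η.hom_inv_id_app p))
      (congrArg AddCommMonCat.Hom.hom (η.inv_hom_id_app p))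
  have hd : ∀ p, ∃ d : Vs (A.obj p).carrier →+ ℕ, ∀ x, d x = 0 → x = 0 := by
    intro p
    obtain ⟨n, ⟨ψ⟩⟩ := hM p
    refine ⟨{ toFun := fun x => ∑ i, ψ (φ p x) i
              map_zero' := by simp
              map_add' := fun a b => by simp [Finset.sum_add_distrib] }, fun x hx => ?_⟩
    have h1 : ψ (φ p x) = 0 := funext fun i =>
      Finset.sum_eq_zero_iff.1 (show ∑ i, ψ (φ p x) i = 0 from hx) i (Finset.mem_univ _)
    simpa using h1
  choose d hd using hd
  let f : ∀ {p q : P}, (p ⟶ q) → ((A.obj p).carrier →⋆ₙₐ[ℂ] (A.obj q).carrier) := fun h => A.map h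
  have hf : ∀ {p q : P} (h : p ⟶ q) (x : (A.obj p).carrier), x ∈ gen IsStarProjection →
      f h x ∈ gen IsStarProjection := by
    intro p q h x hx
    induction hx using AddSubmonoid.closure_induction with
    | mem x hx =>
      obtain ⟨a, e, b, he, rfl⟩ := hx
      rw [map_mul, map_mul]
      exact gen_mem (he.map (f h)) _ _
    | zero => rw [map_zero]; exact zero_mem _
    | add x y _ _ hx hy => rw [map_add]; exact add_mem hx hy
  let g : ∀ {p q : P}, (p ⟶ q) → (genRing (IsStarProjection (R := (A.obj p).carrier)) →ₙ+*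
      genRing (IsStarProjection (R := (A.obj q).carrier))) := fun h =>
    { toFun := fun x => ⟨f h x, hf h x x.2⟩
      map_mul' := fun x y => Subtype.ext (map_mul (f h) x.1 y.1)
      map_zero' := Subtype.ext (map_zero (f h))
      map_add' := fun x y => Subtype.ext (map_add (f h) x.1 y.1) }
  let R : P ⥤ Reg.{u} :=
    { obj := fun p => ⟨genRing (IsStarProjection (R := (A.obj p).carrier)),
        soc_regular (A.obj p).rr0 (d p) (hd p)⟩
      map := g
      map_id := fun p => NonUnitalRingHom.ext fun x => Subtype.ext (by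
        have : f (𝟙 p) = NonUnitalStarAlgHom.id ℂ _ := A.map_id p
        show f (𝟙 p) x.1 = x.1
        rw [this]; rfl)
      map_comp := fun {p q r} h h' => NonUnitalRingHom.ext fun x => Subtype.ext (by
        have : f (h ≫ h') = (f h').comp (f h) := A.map_comp h h'
        show f (h ≫ h') x.1 = f h' (f h x.1)
        rw [this]; rfl) }
  choose θ hθ using fun p => exists_soc_equiv (A.obj p).rr0 (d p) (hd p)
  refine ⟨R, ⟨NatIso.ofComponents (F := R ⋙ VReg) (G := A ⋙ VRR0)
    (fun p => (θ p).toAddCommMonCatIso) ?_ ≪≫ η⟩, ?_⟩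
  · intro p q h
    ext x
    apply forget_injective (A.obj q).rr0 (d q) (hd q)
    have h1 : ∀ y, forget _ (Vs.map (RR0.Hom.toStar (A.map h)) y) =
        V.map (RR0.Hom.toStar (A.map h)).toNonUnitalRingHom (forget _ y) :=
      fun y => Quotient.inductionOn y fun _ => rfl
    show forget _ (θ q (V.map (g h) x)) = forget _ (Vs.map (RR0.Hom.toStar (A.map h)) (θ p x))
    rw [hθ, h1, hθ]
    exact Quotient.inductionOn x fun _ => rfl
  · rintro ⟨one, h1, h2⟩
    have hp : ∀ p, IsStarProjection (one p) := fun p => ⟨(h1 p _).1, by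
      have := congrArg star (h1 p (star (one p))).1
      rw [star_mul, star_star, (h1 p _).1] at this
      exact this⟩
    refine ⟨fun p => ⟨one p, ?_⟩, fun p x => ⟨Subtype.ext (h1 p _).1, Subtype.ext (h1 p _).2⟩,
      fun p q h => Subtype.ext (h2 p q h)⟩
    have := gen_mem (D := IsStarProjection) (hp p) (one p) (one p)
    rwa [(h1 p _).1, (h1 p _).1] at this

end Pool.Agent.Results.MP_a87542_al.RR0ImpliesReg
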